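import Pool.Agent.helper64.AX.SpecR

/-!
# AX, row R2: compactness
-/

set_option autoImplicit false

namespace Pool.Agent.AX

open Matrix
open scoped commutatorElement

theorem R2 : R2_stmt := by
  classical
  intro Γ _ _ _ _ A L hL hanti M N₀ hM hN h
  have hK : IsCompact ((M : Set Γ) \ (N₀ : Set Γ)) := hM.isCompact.diff hN
  have hU : ∀ i : A × ℕ, IsOpen ((L i.1 i.2 : Set Γ)ᶜ) := fun i =>
    (Subgroup.isClosed_of_isOpen (L i.1 i.2) (hL i.1 i.2)).isOpen_compl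
  have hcov : ((M : Set Γ) \ (N₀ : Set Γ)) ⊆ ⋃ i : A × ℕ, ((L i.1 i.2 : Set Γ)ᶜ) := by
    intro x hx
    by_contra hcon
    rw [Set.mem_iUnion] at hcon
    push Not at hcon
    apply hx.2
    apply h
    refine Subgroup.mem_inf.mpr ⟨hx.1, ?_⟩
    rw [Subgroup.mem_iInf]
    intro a
    rw [Subgroup.mem_iInf]
    intro s
    have := hcon (a, s)
    rw [Set.notMem_compl_iff] at this
    exact this
  obtain ⟨t, ht⟩ := hK.elim_finite_subcover _ hU hcov
  refine ⟨t.image Prod.fst, t.sup Prod.snd, ?_⟩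
  intro x hx
  by_contra hxN
  obtain ⟨hxM, hxL⟩ := Subgroup.mem_inf.mp hx
  have h1 := ht (show x ∈ (M : Set Γ) \ (N₀ : Set Γ) from ⟨hxM, hxN⟩)
  rw [Set.mem_iUnion₂] at h1
  obtain ⟨i, hi, hxi⟩ := h1
  apply hxi
  rw [Subgroup.mem_iInf] at hxL
  have h2 := hxL i.1
  rw [Subgroup.mem_iInf] at h2
  have h3 := h2 (Finset.mem_image_of_mem _ hi)
  exact hanti i.1 (Finset.le_sup (f := Prod.snd) hi) h3

end Pool.Agent.AX
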