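import Pool.Agent.helper64.AX.SpecR

/-!
# AX, row C4: the commutator in representations
-/

set_option autoImplicit false

namespace Pool.Agent.AX

open Matrix
open scoped commutatorElement

theorem C4 (hCLW : CLW_stmt) : C4_stmt := by
  intro p m _ R _ _ hR κ _ _ hp σ x y
  have h := hCLW p m κ σ.toHomUnits.range hp (Set.finite_range _) (by
    rintro g ⟨a, rfl⟩
    obtain ⟨k, hk⟩ := hR a
    refine ⟨k, ?_⟩
    rw [← map_pow, hk, map_one]) (σ.toHomUnits x) ⟨x, rfl⟩ (σ.toHomUnits y) ⟨y, rfl⟩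
  have h2 : σ.toHomUnits ⁅x ^ m.factorial, y ^ m.factorial⁆ = 1 := by
    rw [map_commutatorElement, map_pow, map_pow, commutatorElement_eq_one_iff_mul_comm]
    exact h
  have h3 : ((σ.toHomUnits ⁅x ^ m.factorial, y ^ m.factorial⁆ : (Matrix (Fin m) (Fin m) κ)ˣ) : Matrix (Fin m) (Fin m) κ) =
      σ ⁅x ^ m.factorial, y ^ m.factorial⁆ := MonoidHom.coe_toHomUnits _ _
  rw [← h3, h2]
  rfl

end Pool.Agent.AX
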