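import Pool.Agent.helper64.AX.SpecD

/-!
# AX, row CLF: the law at finite level
-/

set_option autoImplicit false

namespace Pool.Agent.AX

open Matrix
open scoped commutatorElement

theorem CLF (hCLW : CLW_stmt) : CLF_stmt := by
  intro p _ m D _ _ ι q d κ _ _ _ r K P hd hq hK hKK hr hP x hx y hy
  rw [← commutatorElement_eq_one_iff_mul_comm]
  apply hKK
  intro a
  have hx' : x ^ m.factorial ∈ P := P.pow_mem hx _
  have hy' : y ^ m.factorial ∈ P := P.pow_mem hy _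
  have hc : ⁅x ^ m.factorial, y ^ m.factorial⁆ ∈ P := by
    rw [commutatorElement_def]
    exact P.mul_mem (P.mul_mem (P.mul_mem hx' hy') (P.inv_mem hx')) (P.inv_mem hy')
  have hpa : (p : κ a) ≠ 0 := by
    rw [Ne, CharP.cast_eq_zero_iff (κ a) (q a) p]
    intro h
    exact (hq a).2 ((Nat.prime_dvd_prime_iff_eq (hq a).1 Fact.out).mp h)
  have h1 := hCLW p (d a) (κ a) (P.map (r a)) hpa ((Set.toFinite (P : Set D)).image (r a)) (by
    rintro g ⟨b, hb, rfl⟩
    obtain ⟨k, hk⟩ := hP b hb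
    refine ⟨k, ?_⟩
    rw [← map_pow, hk, map_one]) (r a x) ⟨x, hx, rfl⟩ (r a y) ⟨y, hy, rfl⟩
  obtain ⟨e, he⟩ := Nat.factorial_dvd_factorial (hd a)
  have h2 : r a ⁅x ^ m.factorial, y ^ m.factorial⁆ = 1 := by
    rw [map_commutatorElement, map_pow, map_pow, commutatorElement_eq_one_iff_mul_comm, he, pow_mul, pow_mul]
    have h3 : Commute (r a x ^ (d a).factorial) (r a y ^ (d a).factorial) := h1
    exact (h3.pow_pow e e)
  obtain ⟨k, hk⟩ := hr a _ h2
  obtain ⟨j, hj⟩ := hP _ hc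
  generalize ⁅x ^ m.factorial, y ^ m.factorial⁆ = c at *
  have hcop : IsCoprime ((q a ^ k : ℕ) : ℤ) ((p ^ j : ℕ) : ℤ) := by
    rw [Nat.isCoprime_iff_coprime]
    apply Nat.Coprime.pow
    exact (Nat.coprime_primes (hq a).1 Fact.out).mpr (hq a).2
  obtain ⟨u, v, huv⟩ := hcop
  have h4 : c = (c ^ q a ^ k) ^ u * (c ^ p ^ j) ^ v := by
    rw [← _root_.zpow_natCast, ← _root_.zpow_natCast, ← _root_.zpow_mul, ← _root_.zpow_mul, ← _root_.zpow_add, mul_comm _ u, mul_comm _ v, huv, _root_.zpow_one]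
  rw [h4, hj, _root_.one_zpow, mul_one]
  exact (K a).zpow_mem hk u

end Pool.Agent.AX
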